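import Pool.Agent.H171R2.Tri.DC

/-!
# Tasks D1, D2, D3: ranks, order of the cuts on an edge, local structure at degree 3
-/

namespace Pool.Agent.H171R2.Tri

open Finset

theorem d1 : Stmt_D1 := by
  intro α _ S f hf
  set r : α → ℕ := fun x => (S.filter (fun y => f y ≤ f x)).card with hr
  have hlt : ∀ x ∈ S, ∀ y ∈ S, f x < f y → r x < r y := by
    intro x hx y hy hxy
    apply Finset.card_lt_card
    rw [Finset.ssubset_iff_of_subset]
    · exact ⟨y, by simp [hy], by simp [hy, hxy]⟩
    · intro z hz
      rw [Finset.mem_filter] at hz ⊢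
      exact ⟨hz.1, hz.2.trans hxy.le⟩
  have hinj : ∀ x ∈ S, ∀ y ∈ S, r x = r y → x = y := by
    intro x hx y hy hxy
    rcases lt_trichotomy (f x) (f y) with h | h | h
    · exact absurd hxy (hlt x hx y hy h).ne
    · exact hf x hx y hy h
    · exact absurd hxy (hlt y hy x hx h).ne'
  have hb : ∀ x ∈ S, 1 ≤ r x ∧ r x ≤ S.card := by
    intro x hx
    refine ⟨Finset.card_pos.2 ⟨x, by simp [hx]⟩, Finset.card_le_card (Finset.filter_subset _ _)⟩
  refine ⟨hb, hinj, ?_⟩
  intro s hs1 hs2
  have himg : S.image r = Finset.Icc 1 S.card := by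
    apply Finset.eq_of_subset_of_card_le
    · intro n hn
      rw [Finset.mem_image] at hn
      obtain ⟨x, hx, rfl⟩ := hn
      rw [Finset.mem_Icc]
      exact hb x hx
    · rw [Finset.card_image_of_injOn (fun x hx y hy h => hinj x hx y hy h)]
      simp
  have : s ∈ S.image r := by rw [himg, Finset.mem_Icc]; exact ⟨hs1, hs2⟩
  rw [Finset.mem_image] at this
  obtain ⟨x, hx, hxs⟩ := this
  exact ⟨x, hx, hxs⟩

theorem z_a (k : ZMod 6) : k + 3 + 2 = k - 1 := by revert k; decide
theorem z_b (k : ZMod 6) : k + 3 - 1 = k + 2 := by revert k; decide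
theorem z_c (k : ZMod 6) : k + 1 - 1 = k := by revert k; decide
theorem z_d (k : ZMod 6) : k + 2 + 1 = k + 3 := by revert k; decide
theorem z_e (k : ZMod 6) : k + 4 + 1 = k + 5 := by revert k; decide
theorem z_f (k : ZMod 6) : k + 5 - 1 = k + 4 := by revert k; decide
theorem z_g (k : ZMod 6) : k - 1 = k + 5 := by revert k; decide
theorem z_h (k : ZMod 6) : k = k + 4 + 2 := by revert k; decide

theorem e_opp (k : ZMod 6) : e k + e (k + 3) = 0 := by
  fin_cases k <;> decide

namespace Packing

variable {V : Finset Pt} {w : Pt → ℕ} {K : ℕ}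

theorem mem_other2 (P : Packing V w K) (j : Fin K) (v : Pt) (k : ZMod 6) :
    P.mem j (v + e k) (k + 2) = P.mem j v k := P.compat j v k

theorem mem_other3 (P : Packing V w K) (j : Fin K) (v : Pt) (k : ZMod 6) :
    P.mem j (v + e k) (k + 3) = P.mem j v (k - 1) := by
  have h := P.compat j (v + e k) (k + 3)
  have h1 : v + e k + e (k + 3) = v := by rw [add_assoc, e_opp, add_zero]
  have h2 : k + 3 + 2 = k - 1 := z_a k
  rw [h1, h2] at h
  exact h.symm

theorem key_inj (P : Packing V w K) (v : Pt) (k : ZMod 6) (j j' : Fin K)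
    (h : P.key j v k = P.key j' v k) : j = j' := by
  have h1 := j.2
  have h2 := j'.2
  unfold key at h
  ext
  split_ifs at h <;> omega

theorem mem_X (P : Packing V w K) (v : Pt) (k : ZMod 6) (j : Fin K) :
    j ∈ P.X v k ↔ P.mem j v k ≠ P.mem j v (k - 1) := by
  simp [X]

theorem key_add (P : Packing V w K) (v : Pt) (k : ZMod 6) (j : Fin K) (hj : j ∈ P.X v k) :
    P.key j v k + P.key j v (k - 1) = 2 * K := by
  rw [mem_X] at hj
  have h1 := j.2
  unfold key
  rcases Bool.eq_false_or_eq_true (P.mem j v k) with ha | ha <;>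
  rcases Bool.eq_false_or_eq_true (P.mem j v (k - 1)) with hb | hb <;>
  simp [ha, hb] at hj ⊢ <;> omega

theorem X_other (P : Packing V w K) (v : Pt) (k : ZMod 6) : P.X (v + e k) (k + 3) = P.X v k := by
  ext j
  rw [mem_X, mem_X]
  have h2 : k + 3 - 1 = k + 2 := z_b k
  rw [h2, mem_other2, mem_other3]
  exact ne_comm

theorem key_other3 (P : Packing V w K) (v : Pt) (k : ZMod 6) (j : Fin K) :
    P.key j (v + e k) (k + 3) = P.key j v (k - 1) := by
  unfold key
  rw [mem_other3]

theorem key_other2 (P : Packing V w K) (v : Pt) (k : ZMod 6) (j : Fin K) :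
    P.key j (v + e k) (k + 3 - 1) = P.key j v k := by
  have h2 : k + 3 - 1 = k + 2 := z_b k
  unfold key
  rw [h2, mem_other2]

end Packing

theorem d2 : Stmt_D2 := by
  intro V w K P
  refine ⟨P.key_inj, ?_, P.X_other, ?_, ?_⟩
  · intro v k j hj
    unfold Packing.rk Packing.rkR
    have h1 : (P.X v k).filter (fun j' => P.key j' v (k - 1) ≤ P.key j v (k - 1)) =
        (P.X v k).filter (fun j' => P.key j v k ≤ P.key j' v k) := by
      apply Finset.filter_congr
      intro j' hj'
      have a := P.key_add v k j hj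
      have b := P.key_add v k j' hj'
      omega
    rw [h1]
    have h2 : (P.X v k).filter (fun j' => P.key j' v k ≤ P.key j v k) ∪
        (P.X v k).filter (fun j' => P.key j v k ≤ P.key j' v k) = P.X v k := by
      ext z
      simp only [Finset.mem_union, Finset.mem_filter]
      constructor
      · rintro (h | h) <;> exact h.1
      · intro h
        rcases le_total (P.key z v k) (P.key j v k) with h' | h'
        · exact Or.inl ⟨h, h'⟩
        · exact Or.inr ⟨h, h'⟩
    have h3 : (P.X v k).filter (fun j' => P.key j' v k ≤ P.key j v k) ∩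
        (P.X v k).filter (fun j' => P.key j v k ≤ P.key j' v k) = {j} := by
      ext z
      simp only [Finset.mem_inter, Finset.mem_filter, Finset.mem_singleton]
      constructor
      · rintro ⟨⟨_, h⟩, ⟨_, h'⟩⟩
        exact P.key_inj v k z j (le_antisymm h h')
      · rintro rfl
        exact ⟨⟨hj, le_refl _⟩, ⟨hj, le_refl _⟩⟩
    rw [← Finset.card_union_add_card_inter, h2, h3, Finset.card_singleton]
  · intro v k j
    unfold Packing.rk Packing.rkR
    rw [P.X_other]
    congr 1
    apply Finset.filter_congr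
    intro j' _
    rw [P.key_other3, P.key_other3]
  · intro v k j
    unfold Packing.rk Packing.rkR
    rw [P.X_other]
    congr 1
    apply Finset.filter_congr
    intro j' _
    rw [P.key_other2, P.key_other2]

namespace Packing

variable {V : Finset Pt} {w : Pt → ℕ} {K : ℕ}

theorem d3_mem (P : Packing V w K) (hV : TriFree (V : Set Pt)) (v : Pt) (A : ZMod 6)
    (h : D3 V v A) (j : Fin K) :
    P.mem j v (A + 1) = P.mem j v A ∧ P.mem j v (A + 3) = P.mem j v (A + 2) ∧
      P.mem j v (A + 5) = P.mem j v (A + 4) := by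
  obtain ⟨hv, h0, h2, h4⟩ := h
  refine ⟨?_, ?_, ?_⟩
  · have := P.nonedge j v hv (A + 1) (by exact_mod_cast hV v hv A h0)
    have hA : A + 1 - 1 = A := z_c A
    rwa [hA] at this
  · have h3 := hV v hv (A + 2) h2
    have hA : A + 2 + 1 = A + 3 := z_d A
    rw [hA] at h3
    have := P.nonedge j v hv (A + 3) (by exact_mod_cast h3)
    have hA : A + 3 - 1 = A + 2 := z_b A
    rwa [hA] at this
  · have h5 := hV v hv (A + 4) h4
    have hA : A + 4 + 1 = A + 5 := z_e A
    rw [hA] at h5
    have := P.nonedge j v hv (A + 5) (by exact_mod_cast h5)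
    have hA : A + 5 - 1 = A + 4 := z_f A
    rwa [hA] at this

theorem mem_cls (P : Packing V w K) (v : Pt) (A : ZMod 6) (j : Fin K) :
    j ∈ P.cls v A ↔ P.mem j v A ≠ P.mem j v (A + 2) ∧ P.mem j v (A + 2) = P.mem j v (A + 4) := by
  simp [cls]

theorem mem_cls2 (P : Packing V w K) (v : Pt) (A : ZMod 6) (j : Fin K) :
    j ∈ P.cls v (A + 2) ↔ P.mem j v (A + 2) ≠ P.mem j v (A + 4) ∧
      P.mem j v (A + 4) = P.mem j v A := by
  rw [mem_cls]
  have h1 : A + 2 + 2 = A + 4 := by revert A; decide
  have h2 : A + 2 + 4 = A := by revert A; decide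
  rw [h1, h2]

theorem mem_cls4 (P : Packing V w K) (v : Pt) (A : ZMod 6) (j : Fin K) :
    j ∈ P.cls v (A + 4) ↔ P.mem j v (A + 4) ≠ P.mem j v A ∧
      P.mem j v A = P.mem j v (A + 2) := by
  rw [mem_cls]
  have h1 : A + 4 + 2 = A := by revert A; decide
  have h2 : A + 4 + 4 = A + 2 := by revert A; decide
  rw [h1, h2]

/-- local form of laminarity -/
theorem lam (P : Packing V w K) (v : Pt) (i j : Fin K) (hij : i < j) :
    (∀ k, P.mem i v k = true → P.mem j v k = true) ∨
    (∀ k, P.mem i v k = true → P.mem j v k = false) := by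
  rcases P.laminar i j hij with h | h
  · exact Or.inl (h v)
  · exact Or.inr (h v)

theorem order2 (P : Packing V w K) (v : Pt) (A : ZMod 6) :
    ∀ j ∈ P.cls v A, ∀ j' ∈ P.cls v (A + 2), P.key j v A < P.key j' v A := by
  intro j hj j' hj'
  rw [mem_cls] at hj
  rw [mem_cls2] at hj'
  have b1 := j.2
  have b2 := j'.2
  have hne : j ≠ j' := by
    rintro rfl
    rw [← hj'.2, ← hj.2] at hj
    exact hj.1 rfl
  unfold key
  rcases lt_or_gt_of_ne hne with hlt | hlt
  · rcases P.lam v j j' hlt with h | h <;>
    have h0 := h A <;> have h2 := h (A + 2) <;> have h4 := h (A + 4) <;>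
    generalize P.mem j v A = a at * <;> generalize P.mem j v (A + 2) = b at * <;>
    generalize P.mem j v (A + 4) = c at * <;> generalize P.mem j' v A = a' at * <;>
    generalize P.mem j' v (A + 2) = b' at * <;> generalize P.mem j' v (A + 4) = c' at * <;>
    cases a <;> cases b <;> cases c <;> cases a' <;> cases b' <;> cases c' <;>
    simp at hj hj' h0 h2 h4 ⊢ <;> omega
  · rcases P.lam v j' j hlt with h | h <;>
    have h0 := h A <;> have h2 := h (A + 2) <;> have h4 := h (A + 4) <;>
    generalize P.mem j v A = a at * <;> generalize P.mem j v (A + 2) = b at * <;>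
    generalize P.mem j v (A + 4) = c at * <;> generalize P.mem j' v A = a' at * <;>
    generalize P.mem j' v (A + 2) = b' at * <;> generalize P.mem j' v (A + 4) = c' at * <;>
    cases a <;> cases b <;> cases c <;> cases a' <;> cases b' <;> cases c' <;>
    simp at hj hj' h0 h2 h4 ⊢ <;> omega

theorem order4 (P : Packing V w K) (v : Pt) (A : ZMod 6) :
    ∀ j ∈ P.cls v A, ∀ j' ∈ P.cls v (A + 4), P.key j v A < P.key j' v A := by
  intro j hj j' hj'
  rw [mem_cls] at hj
  rw [mem_cls4] at hj'
  have b1 := j.2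
  have b2 := j'.2
  have hne : j ≠ j' := by
    rintro rfl
    exact hj.1 hj'.2
  unfold key
  rcases lt_or_gt_of_ne hne with hlt | hlt
  · rcases P.lam v j j' hlt with h | h <;>
    have h0 := h A <;> have h2 := h (A + 2) <;> have h4 := h (A + 4) <;>
    generalize P.mem j v A = a at * <;> generalize P.mem j v (A + 2) = b at * <;>
    generalize P.mem j v (A + 4) = c at * <;> generalize P.mem j' v A = a' at * <;>
    generalize P.mem j' v (A + 2) = b' at * <;> generalize P.mem j' v (A + 4) = c' at * <;>
    cases a <;> cases b <;> cases c <;> cases a' <;> cases b' <;> cases c' <;>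
    simp at hj hj' h0 h2 h4 ⊢ <;> omega
  · rcases P.lam v j' j hlt with h | h <;>
    have h0 := h A <;> have h2 := h (A + 2) <;> have h4 := h (A + 4) <;>
    generalize P.mem j v A = a at * <;> generalize P.mem j v (A + 2) = b at * <;>
    generalize P.mem j v (A + 4) = c at * <;> generalize P.mem j' v A = a' at * <;>
    generalize P.mem j' v (A + 2) = b' at * <;> generalize P.mem j' v (A + 4) = c' at * <;>
    cases a <;> cases b <;> cases c <;> cases a' <;> cases b' <;> cases c' <;>
    simp at hj hj' h0 h2 h4 ⊢ <;> omega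

end Packing

theorem d3 : Stmt_D3 := by
  intro V w K P hV v A hD
  have hm := P.d3_mem hV v A hD
  have hA5 : A - 1 = A + 5 := z_g A
  have hX : P.X v A = P.cls v A ∪ P.cls v (A + 4) := by
    ext j
    rw [Finset.mem_union, Packing.mem_X, Packing.mem_cls, Packing.mem_cls4, hA5, (hm j).2.2]
    generalize P.mem j v A = a
    generalize P.mem j v (A + 2) = b
    generalize P.mem j v (A + 4) = c
    cases a <;> cases b <;> cases c <;> simp
  have hdis : Disjoint (P.cls v A) (P.cls v (A + 4)) := by
    rw [Finset.disjoint_left]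
    intro j hj hj'
    rw [Packing.mem_cls] at hj
    rw [Packing.mem_cls4] at hj'
    exact hj.1 hj'.2
  refine ⟨hm, hX, hdis, P.order2 v A, P.order4 v A, ?_, ?_⟩
  · intro j hj
    unfold Packing.rk Packing.crk
    congr 1
    ext z
    rw [Finset.mem_filter, Finset.mem_filter, hX, Finset.mem_union]
    constructor
    · rintro ⟨h | h, hle⟩
      · exact ⟨h, hle⟩
      · exact absurd hle (not_le.2 (P.order4 v A j hj z h))
    · rintro ⟨h, hle⟩
      exact ⟨Or.inl h, hle⟩
  · intro j hj
    have hkey : ∀ z, P.key z v (A - 1) = P.key z v (A + 4) := by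
      intro z
      unfold Packing.key
      rw [hA5, (hm z).2.2]
    unfold Packing.rkR Packing.crk
    congr 1
    ext z
    rw [Finset.mem_filter, Finset.mem_filter, hX, Finset.mem_union, hkey, hkey]
    constructor
    · rintro ⟨h | h, hle⟩
      · have hA : A = A + 4 + 2 := z_h A
        have h' := P.order2 v (A + 4) j hj z (by rw [← hA]; exact h)
        exact absurd hle (not_le.2 h')
      · exact ⟨h, hle⟩
    · rintro ⟨h, hle⟩
      exact ⟨Or.inr h, hle⟩

end Pool.Agent.H171R2.Tri
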