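import Pool.Agent.H171R2.Tri.Core

/-!
# Task T7: consequences of the weighted bipartisation theorem
-/

namespace Pool.Agent.H171R2.Tri

open Finset

theorem t7a (h2 : Stmt_T2) (hd : Stmt_DC) : Stmt_OCT := by
  intro V w hV
  obtain ⟨K, ⟨P⟩, S, hS, σ, hσ, hle⟩ := h2 V (fun v => 2 * w v) (fun v => even_two_mul _)
  refine ⟨S, hS, σ, hσ, ?_⟩
  have h9 := hd V (fun v => 2 * w v) K hV P
  rw [← Finset.mul_sum] at hle h9
  omega

/-- weighted stable sets, natural weights -/
theorem weighted_nat (h : Stmt_OCT) (V : Finset Pt) (w : Pt → ℕ) (hV : TriFree (V : Set Pt)) :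
    ∃ S ⊆ V, Stable S ∧ 4 * ∑ v ∈ V, w v ≤ 9 * ∑ v ∈ S, w v := by
  classical
  obtain ⟨S, hS, σ, hσ, hle⟩ := h V w hV
  set A : Bool → Finset Pt := fun b => (V \ S).filter (fun v => σ v = b) with hA
  have hsub : ∀ b, A b ⊆ V := fun b => (Finset.filter_subset _ _).trans Finset.sdiff_subset
  have hst : ∀ b, Stable (A b) := by
    intro b u hu k hk
    simp only [hA, Finset.mem_filter] at hu hk
    exact hσ u hu.1 k hk.1 (hu.2.trans hk.2.symm)
  have hsum : ∑ v ∈ A true, w v + ∑ v ∈ A false, w v + ∑ v ∈ S, w v = ∑ v ∈ V, w v := by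
    rw [← Finset.sum_sdiff hS]
    congr 1
    have := Finset.sum_filter_add_sum_filter_not (V \ S) (fun v => σ v = true) w
    rw [← this]
    congr 1
    apply Finset.sum_congr _ (fun _ _ => rfl)
    ext v
    simp [hA]
  by_cases hc : ∑ v ∈ A false, w v ≤ ∑ v ∈ A true, w v
  · exact ⟨A true, hsub _, hst _, by omega⟩
  · exact ⟨A false, hsub _, hst _, by omega⟩

theorem t7b (h : Stmt_OCT) : ∀ V : Finset Pt, TriFree (V : Set Pt) →
    ∃ S ⊆ V, Stable S ∧ 4 * V.card ≤ 9 * S.card := by
  intro V hV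
  obtain ⟨S, hS, hst, hle⟩ := weighted_nat h V (fun _ => 1) hV
  exact ⟨S, hS, hst, by simpa using hle⟩

/-- weighted stable sets, real weights -/
theorem weighted_real (h : Stmt_OCT) (V : Finset Pt) (w : Pt → ℝ) (hw : ∀ v ∈ V, 0 ≤ w v)
    (hV : TriFree (V : Set Pt)) :
    ∃ S ⊆ V, Stable S ∧ 4 * ∑ v ∈ V, w v ≤ 9 * ∑ v ∈ S, w v := by
  classical
  by_contra hcon
  push Not at hcon
  -- a uniform gap
  have hgap : ∃ δ > 0, ∀ S ⊆ V, Stable S → 9 * ∑ v ∈ S, w v + δ ≤ 4 * ∑ v ∈ V, w v := by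
    set F := (V.powerset.filter (fun S => Stable S)) with hF
    have hne : F.Nonempty := ⟨∅, by simp [hF, Stable]⟩
    obtain ⟨S0, hS0, hmin⟩ := Finset.exists_min_image F
      (fun S => 4 * ∑ v ∈ V, w v - 9 * ∑ v ∈ S, w v) hne
    rw [hF, Finset.mem_filter, Finset.mem_powerset] at hS0
    refine ⟨4 * ∑ v ∈ V, w v - 9 * ∑ v ∈ S0, w v, by linarith [hcon S0 hS0.1 hS0.2], ?_⟩
    intro S hS hst
    have := hmin S (by rw [hF, Finset.mem_filter, Finset.mem_powerset]; exact ⟨hS, hst⟩)
    linarith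
  obtain ⟨δ, hδ, hgap⟩ := hgap
  obtain ⟨N, hN⟩ := exists_nat_gt (4 * (V.card : ℝ) / δ)
  obtain ⟨S, hS, hst, hle⟩ := weighted_nat h V (fun v => ⌊(N : ℝ) * w v⌋₊) hV
  have h1 : (∑ v ∈ S, (⌊(N : ℝ) * w v⌋₊ : ℝ)) ≤ N * ∑ v ∈ S, w v := by
    rw [Finset.mul_sum]
    apply Finset.sum_le_sum
    intro v hv
    exact Nat.floor_le (mul_nonneg (Nat.cast_nonneg _) (hw v (hS hv)))
  have h2 : N * ∑ v ∈ V, w v - V.card ≤ ∑ v ∈ V, (⌊(N : ℝ) * w v⌋₊ : ℝ) := by
    have : ∑ v ∈ V, ((N : ℝ) * w v - 1) ≤ ∑ v ∈ V, (⌊(N : ℝ) * w v⌋₊ : ℝ) := by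
      apply Finset.sum_le_sum
      intro v _
      linarith [Nat.lt_floor_add_one ((N : ℝ) * w v)]
    rw [Finset.sum_sub_distrib, ← Finset.mul_sum] at this
    simpa using this
  have h3 : (4 : ℝ) * ∑ v ∈ V, (⌊(N : ℝ) * w v⌋₊ : ℝ) ≤ 9 * ∑ v ∈ S, (⌊(N : ℝ) * w v⌋₊ : ℝ) := by
    exact_mod_cast hle
  have h4 := hgap S hS hst
  have h5 : (4 * (V.card : ℝ)) < N * δ := by
    rwa [div_lt_iff₀ hδ] at hN
  have hN0 : (0 : ℝ) ≤ N := Nat.cast_nonneg _
  have h6 := mul_le_mul_of_nonneg_left h4 hN0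
  nlinarith

/-- indicator vector -/
noncomputable def ind (V S : Finset Pt) : (↥V) → ℝ := fun v => if (v : Pt) ∈ S then 1 else 0

theorem ind_inj (V : Finset Pt) {S T : Finset Pt} (hS : S ⊆ V) (hT : T ⊆ V)
    (h : ind V S = ind V T) : S = T := by
  ext v
  constructor
  · intro hv
    have := congrFun h ⟨v, hS hv⟩
    simp only [ind, hv, if_true] at this
    by_contra hc
    rw [if_neg hc] at this
    exact one_ne_zero this
  · intro hv
    have := congrFun h ⟨v, hT hv⟩
    simp only [ind, hv, if_true] at this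
    by_contra hc
    rw [if_neg hc] at this
    exact one_ne_zero this.symm

theorem t7c (h : Stmt_OCT) : Stmt_Frac := by
  classical
  intro V hV
  set F := (V.powerset.filter (fun S => Stable S)) with hF
  have hFm : ∀ S, S ∈ F ↔ S ⊆ V ∧ Stable S := by
    intro S; rw [hF, Finset.mem_filter, Finset.mem_powerset]
  set T : Finset (↥V → ℝ) := F.image (ind V) with hT
  set D : Set (↥V → ℝ) := {x | ∀ v, 4 / 9 ≤ x v} with hD
  have hDc : IsClosed D := by
    have : D = ⋂ v, {x | 4 / 9 ≤ x v} := by ext; simp [hD]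
    rw [this]
    exact isClosed_iInter (fun v => isClosed_le continuous_const (continuous_apply v))
  have hDconv : Convex ℝ D := by
    intro x hx y hy a b ha hb hab v
    simp only [Pi.add_apply, Pi.smul_apply, smul_eq_mul]
    have := hx v
    have := hy v
    nlinarith
  have hmeet : ¬ Disjoint (convexHull ℝ (T : Set (↥V → ℝ))) D := by
    intro hdis
    have hcomp : IsCompact (convexHull ℝ (T : Set (↥V → ℝ))) :=
      Set.Finite.isCompact_convexHull ℝ T.finite_toSet
    obtain ⟨f, u, v, hu, huv, hv⟩ := geometric_hahn_banach_compact_closed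
      (convex_convexHull ℝ (T : Set (↥V → ℝ))) hcomp hDconv hDc hdis
    -- coordinates of f
    set c : ↥V → ℝ := fun a => f (Pi.single a 1) with hc
    have hf : ∀ x : ↥V → ℝ, f x = ∑ a, x a * c a := by
      intro x
      conv_lhs => rw [← Finset.univ_sum_single x]
      rw [map_sum]
      apply Finset.sum_congr rfl
      intro a _
      have : (Pi.single a (x a) : ↥V → ℝ) = x a • Pi.single a (1 : ℝ) := by
        rw [← Pi.single_smul]; simp
      rw [this, map_smul, smul_eq_mul]
    have hcpos : ∀ a, 0 ≤ c a := by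
      intro a
      by_contra hneg
      push Not at hneg
      -- move far in the direction a
      set t : ℝ := (|f (fun _ => 4 / 9)| + |v| + 1) / (-c a) with ht
      have htpos : 0 ≤ t := by
        apply div_nonneg
        · positivity
        · linarith
      have hmem : ((fun _ => 4 / 9) + t • Pi.single a (1 : ℝ) : ↥V → ℝ) ∈ D := by
        intro b
        simp only [Pi.add_apply, Pi.smul_apply, smul_eq_mul]
        have : 0 ≤ (Pi.single a (1 : ℝ) : ↥V → ℝ) b := by
          by_cases hba : b = a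
          · subst hba; simp
          · simp [Pi.single_apply, hba]
        nlinarith
      have := hv _ hmem
      rw [map_add, map_smul, smul_eq_mul] at this
      have h1 : t * c a = -(|f (fun _ => 4 / 9)| + |v| + 1) := by
        rw [ht, div_mul_eq_mul_div, div_eq_iff (by linarith : -c a ≠ 0)]
        ring
      have h2 : t * f (Pi.single a (1 : ℝ)) = -(|f (fun _ => 4 / 9)| + |v| + 1) := h1
      rw [h2] at this
      have h3 := le_abs_self (f (fun _ => 4 / 9))
      have h4 := neg_abs_le v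
      linarith
    -- weights on points
    set w : Pt → ℝ := fun p => if hp : p ∈ V then c ⟨p, hp⟩ else 0 with hw
    have hwpos : ∀ p ∈ V, 0 ≤ w p := by
      intro p hp
      simp only [hw, hp, dif_pos]
      exact hcpos _
    have hsumV : ∀ S ⊆ V, ∑ p ∈ S, w p = f (ind V S) := by
      intro S hS
      rw [hf]
      have : ∑ a : ↥V, ind V S a * c a = ∑ a : ↥V, (fun p => if p ∈ S then w p else 0) (a : Pt) := by
        apply Finset.sum_congr rfl
        intro a _
        simp only [ind, hw, a.2, dif_pos]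
        split_ifs <;> simp
      rw [this, Finset.sum_coe_sort V (fun p => if p ∈ S then w p else 0),
        ← Finset.sum_filter]
      apply Finset.sum_congr _ (fun _ _ => rfl)
      ext p
      simp only [Finset.mem_filter]
      exact ⟨fun hp => ⟨hS hp, hp⟩, fun hp => hp.2⟩
    obtain ⟨S, hS, hst, hle⟩ := weighted_real h V w hwpos hV
    have h1 : f (ind V S) < u := by
      apply hu
      apply subset_convexHull
      rw [hT, Finset.coe_image]
      exact ⟨S, by exact_mod_cast (hFm S).2 ⟨hS, hst⟩, rfl⟩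
    have h2 : v < f (fun _ => 4 / 9) := hv _ (fun _ => le_refl _)
    have h3 : f (fun _ => 4 / 9) = 4 / 9 * ∑ p ∈ V, w p := by
      have : (fun _ => 4 / 9 : ↥V → ℝ) = (4 / 9 : ℝ) • ind V V := by
        ext a
        simp [ind]
      rw [this, map_smul, smul_eq_mul, hsumV V (Finset.Subset.refl _)]
    rw [← hsumV S hS] at h1
    rw [h3] at h2
    linarith
  rw [Set.not_disjoint_iff] at hmeet
  obtain ⟨x, hx, hxD⟩ := hmeet
  rw [Finset.mem_convexHull'] at hx
  obtain ⟨w, hw0, hw1, hwx⟩ := hx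
  have hinj : Set.InjOn (ind V) (F : Set (Finset Pt)) := by
    intro S hS T' hT' hST
    rw [Finset.mem_coe, hFm] at hS hT'
    exact ind_inj V hS.1 hT'.1 hST
  rw [hT, Finset.sum_image hinj] at hw1
  rw [hT, Finset.sum_image hinj] at hwx
  have hw0' : ∀ S ∈ F, 0 ≤ w (ind V S) := fun S hS =>
    hw0 _ (by rw [hT]; exact Finset.mem_image_of_mem _ hS)
  refine ⟨fun S => if S ∈ F then 9 / 4 * w (ind V S) else 0, ?_, ?_, ?_, ?_⟩
  · intro S
    dsimp only
    split_ifs with hS
    · have := hw0' S hS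
      positivity
    · exact le_refl _
  · intro S hS
    dsimp only at hS
    by_contra hc
    rw [← hFm] at hc
    exact hS (if_neg hc)
  · intro v hv
    have h1 := congrFun hwx ⟨v, hv⟩
    have h2 := hxD ⟨v, hv⟩
    rw [Finset.sum_apply] at h1
    have h3 : ∑ S ∈ V.powerset, (if v ∈ S then (if S ∈ F then 9 / 4 * w (ind V S) else 0) else 0)
        = 9 / 4 * ∑ S ∈ F, (w (ind V S) • ind V S) ⟨v, hv⟩ := by
      rw [hF, Finset.sum_filter, Finset.mul_sum]
      apply Finset.sum_congr rfl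
      intro S hS
      have hSF : S ∈ Finset.filter (fun S => Stable S) V.powerset ↔ Stable S := by
        rw [Finset.mem_filter]
        exact ⟨fun h => h.2, fun h => ⟨hS, h⟩⟩
      simp only [hSF, Pi.smul_apply, ind, smul_eq_mul]
      split_ifs <;> simp
    rw [h3, h1]
    linarith
  · have h3 : ∑ S ∈ V.powerset, (if S ∈ F then 9 / 4 * w (ind V S) else 0)
        = 9 / 4 * ∑ S ∈ F, w (ind V S) := by
      rw [hF, Finset.sum_filter, Finset.mul_sum]
      apply Finset.sum_congr rfl
      intro S hS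
      have hSF : S ∈ Finset.filter (fun S => Stable S) V.powerset ↔ Stable S := by
        rw [Finset.mem_filter]
        exact ⟨fun h => h.2, fun h => ⟨hS, h⟩⟩
      simp only [hSF]
      split_ifs <;> simp
    rw [h3, hw1]
    norm_num

end Pool.Agent.H171R2.Tri
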