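import Pool.Agent.H896R2.Tri.T7

/-!
# Final forms of the consequences: induced subgraphs of the triangular lattice
-/

namespace Pool.Agent.H171R2.Tri

open Finset

/-- The point `a (1,0) + b (1/2, √3/2)` of the plane. -/
noncomputable def pos (p : ℤ × ℤ) : EuclideanSpace ℝ (Fin 2) :=
  !₂[(p.1 : ℝ) + (p.2 : ℝ) / 2, (p.2 : ℝ) * Real.sqrt 3 / 2]

theorem dist_pos (u v : ℤ × ℤ) : dist (pos u) (pos v) = 1 ↔
    (v.1 - u.1) ^ 2 + (v.1 - u.1) * (v.2 - u.2) + (v.2 - u.2) ^ 2 = 1 := by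
  rw [EuclideanSpace.dist_eq, Real.sqrt_eq_one]
  simp only [pos, Fin.sum_univ_two, Real.dist_eq, sq_abs]
  simp only [PiLp.toLp_apply, Matrix.cons_val_zero, Matrix.cons_val_one]
  have h3 : Real.sqrt 3 ^ 2 = 3 := Real.sq_sqrt (by norm_num)
  have : ((u.1 : ℝ) + (u.2 : ℝ) / 2 - ((v.1 : ℝ) + (v.2 : ℝ) / 2)) ^ 2 +
      ((u.2 : ℝ) * Real.sqrt 3 / 2 - (v.2 : ℝ) * Real.sqrt 3 / 2) ^ 2 =
      ((v.1 : ℝ) - u.1) ^ 2 + ((v.1 : ℝ) - u.1) * (v.2 - u.2) + ((v.2 : ℝ) - u.2) ^ 2 := by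
    have : ((u.2 : ℝ) * Real.sqrt 3 / 2 - (v.2 : ℝ) * Real.sqrt 3 / 2) ^ 2 =
        ((u.2 : ℝ) - v.2) ^ 2 * (Real.sqrt 3 ^ 2) / 4 := by ring
    rw [this, h3]
    ring
  rw [this]
  constructor
  · intro h
    exact_mod_cast h
  · intro h
    exact_mod_cast h

/-- The triangular lattice: two lattice points are adjacent iff their Euclidean distance is 1. -/
noncomputable def triLattice : SimpleGraph (ℤ × ℤ) where
  Adj u v := dist (pos u) (pos v) = 1
  symm := ⟨fun u v h => by rw [dist_comm]; exact h⟩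
  loopless := ⟨fun u h => by simp at h⟩

theorem norm_eq_one_iff (x y : ℤ) : x ^ 2 + x * y + y ^ 2 = 1 ↔ ∃ k : ZMod 6, (x, y) = e k := by
  constructor
  · intro h
    have hx : x ^ 2 ≤ 1 := by nlinarith [sq_nonneg (x + 2 * y), sq_nonneg x]
    have hy : y ^ 2 ≤ 1 := by nlinarith [sq_nonneg (2 * x + y), sq_nonneg y]
    have hx1 : x ≤ 1 := by nlinarith
    have hx2 : -1 ≤ x := by nlinarith
    have hy1 : y ≤ 1 := by nlinarith
    have hy2 : -1 ≤ y := by nlinarith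
    have : ∀ k : ZMod 6, e k = (![(1, 0), (0, 1), (-1, 1), (-1, 0), (0, -1), (1, -1)] : Fin 6 → Pt) k :=
      fun _ => rfl
    interval_cases x <;> interval_cases y <;> simp at h
    · exact ⟨3, rfl⟩
    · exact ⟨2, rfl⟩
    · exact ⟨4, rfl⟩
    · exact ⟨1, rfl⟩
    · exact ⟨5, rfl⟩
    · exact ⟨0, rfl⟩
  · rintro ⟨k, hk⟩
    have h1 : x = (e k).1 := by rw [← hk]
    have h2 : y = (e k).2 := by rw [← hk]
    rw [h1, h2]
    revert k
    intro k _ _ _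
    fin_cases k <;> decide

theorem triLattice_adj (u v : ℤ × ℤ) : triLattice.Adj u v ↔ ∃ k : ZMod 6, v = u + e k := by
  show dist (pos u) (pos v) = 1 ↔ _
  rw [dist_pos, norm_eq_one_iff]
  constructor
  · rintro ⟨k, hk⟩
    refine ⟨k, ?_⟩
    have h1 := congrArg Prod.fst hk
    have h2 := congrArg Prod.snd hk
    ext
    · simp only [Prod.fst_add]; simp only at h1; linarith
    · simp only [Prod.snd_add]; simp only at h2; linarith
  · rintro ⟨k, hk⟩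
    refine ⟨k, ?_⟩
    rw [hk]
    ext <;> simp

theorem e_add (k : ZMod 6) : e k + e (k + 2) = e (k + 1) := by
  fin_cases k <;> decide

theorem triFree_of_cliqueFree (V : Finset (ℤ × ℤ))
    (hV : (triLattice.induce (V : Set (ℤ × ℤ))).CliqueFree 3) : TriFree (V : Set Pt) := by
  intro v hv k hk hk1
  apply hV {⟨v, hv⟩, ⟨v + e k, hk⟩, ⟨v + e (k + 1), hk1⟩}
  rw [SimpleGraph.is3Clique_triple_iff]
  simp only [SimpleGraph.comap_adj, Function.Embedding.subtype_apply]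
  refine ⟨(triLattice_adj _ _).2 ⟨k, rfl⟩, (triLattice_adj _ _).2 ⟨k + 1, rfl⟩,
    (triLattice_adj _ _).2 ⟨k + 2, ?_⟩⟩
  show v + e (k + 1) = v + e k + e (k + 2)
  rw [add_assoc, e_add]

theorem indep_of_stable {S : Finset Pt} (hS : Stable S) : triLattice.IsIndepSet (S : Set (ℤ × ℤ)) := by
  intro u hu v hv _ hadj
  rw [triLattice_adj] at hadj
  obtain ⟨k, rfl⟩ := hadj
  exact hS u hu k hv

/-- Q1: `|V(G)| ≤ 9/4 α(G)` for every finite triangle-free induced subgraph of the triangular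
lattice. -/
theorem alpha_bound (h : Stmt_OCT) (V : Finset (ℤ × ℤ))
    (hV : (triLattice.induce (V : Set (ℤ × ℤ))).CliqueFree 3) :
    ∃ S ⊆ V, triLattice.IsIndepSet (S : Set (ℤ × ℤ)) ∧ (V.card : ℝ) ≤ 9 / 4 * S.card := by
  obtain ⟨S, hS, hst, hle⟩ := t7b h V (triFree_of_cliqueFree V hV)
  refine ⟨S, hS, indep_of_stable hst, ?_⟩
  have : (4 * V.card : ℝ) ≤ 9 * S.card := by exact_mod_cast hle
  linarith

/-- Weighted form of Q1 (real non-negative weights). -/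
theorem weighted_alpha_bound (h : Stmt_OCT) (V : Finset (ℤ × ℤ))
    (hV : (triLattice.induce (V : Set (ℤ × ℤ))).CliqueFree 3) (w : ℤ × ℤ → ℝ)
    (hw : ∀ v ∈ V, 0 ≤ w v) :
    ∃ S ⊆ V, triLattice.IsIndepSet (S : Set (ℤ × ℤ)) ∧
      ∑ v ∈ V, w v ≤ 9 / 4 * ∑ v ∈ S, w v := by
  obtain ⟨S, hS, hst, hle⟩ := weighted_real h V w hw (triFree_of_cliqueFree V hV)
  exact ⟨S, hS, indep_of_stable hst, by linarith⟩

/-- Q2: `χ_f(G) ≤ 9/4` for every finite triangle-free induced subgraph of the triangular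
lattice: there are non-negative weights on the independent sets `S ⊆ V` of total weight at most
`9/4` covering every vertex of `V` with weight at least `1`. -/
theorem frac_bound (h : Stmt_OCT) (V : Finset (ℤ × ℤ))
    (hV : (triLattice.induce (V : Set (ℤ × ℤ))).CliqueFree 3) :
    ∃ y : Finset (ℤ × ℤ) → ℝ, (∀ S, 0 ≤ y S) ∧
      (∀ S, y S ≠ 0 → S ⊆ V ∧ triLattice.IsIndepSet (S : Set (ℤ × ℤ))) ∧
      (∀ v ∈ V, 1 ≤ ∑ S ∈ V.powerset with v ∈ S, y S) ∧
      ∑ S ∈ V.powerset, y S ≤ 9 / 4 := by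
  obtain ⟨y, h0, h1, h2, h3⟩ := t7c h V (triFree_of_cliqueFree V hV)
  refine ⟨y, h0, fun S hS => ⟨(h1 S hS).1, indep_of_stable (h1 S hS).2⟩, fun v hv => ?_, h3⟩
  rw [Finset.sum_filter]
  exact h2 v hv

end Pool.Agent.H171R2.Tri
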